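import Mathlib

namespace Pool.Agent.Results.MP_701998_an.Patterns

open MeasureTheory Filter Complex Finset
open scoped Topology

def AllPatterns (E : Set ℝ) : Prop :=
  ∀ F : Finset ℝ, ∃ a b : ℝ, b ≠ 0 ∧ ∀ x ∈ F, a + b * x ∈ E

/-- the Fourier transform of a measure -/
noncomputable def FT (μ : Measure ℝ) (ξ : ℝ) : ℂ := ∫ x : ℝ, exp (-2 * Real.pi * I * x * ξ) ∂μ

def H (M : ℕ) : Set ℝ := {x | ∀ (j : ℕ) (n : ℤ), 1 / (M : ℝ) ≤ |(M : ℝ) ^ j * x - n|}

noncomputable def e (y : ℝ) : ℂ := exp (I * (2 * Real.pi * y : ℝ))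

lemma ne (y : ℝ) : ‖e y‖ = 1 := norm_exp_I_mul_ofReal _

lemma e_add (x y : ℝ) : e (x + y) = e x * e y := by
  unfold e; rw [← exp_add]; congr 1; push_cast; ring

lemma e_conj (x : ℝ) : (starRingEnd ℂ) (e x) = e (-x) := by
  unfold e; rw [← exp_conj, map_mul, conj_ofReal, conj_I]; congr 1; push_cast; ring

lemma e_pow (x : ℝ) (m : ℕ) : e x ^ m = e (m * x) := by
  unfold e; rw [← exp_nat_mul]; congr 1; push_cast; ring

lemma e_cont : Continuous e := by unfold e; fun_prop

lemma e_low (y δ : ℝ) (h : ∀ n : ℤ, δ ≤ |y - n|) : 4 * δ ≤ ‖e y - 1‖ := by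
  have h1 : e y = e (y - round y) := by
    conv_lhs => rw [show y = (y - round y) + round y by ring, e_add]
    have : e (round y : ℤ) = 1 := by
      unfold e; rw [← exp_int_mul_two_pi_mul_I (round y)]; congr 1; push_cast; ring
    rw [this, mul_one]
  have h2 := abs_sub_round y
  have h3 := h (round y)
  rw [h1]
  generalize y - round y = t at *
  unfold e
  rw [norm_exp_I_mul_ofReal_sub_one, Real.norm_eq_abs, abs_mul, abs_two]
  have p := Real.pi_pos
  have h4 := Real.mul_le_sin (x := Real.pi * |t|) (by positivity) (by nlinarith)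
  have h5 : Real.sin (Real.pi * |t|) ≤ |Real.sin (2 * Real.pi * t / 2)| := by
    rw [show 2 * Real.pi * t / 2 = Real.pi * t by ring]
    rcases abs_cases t with ⟨a, -⟩ | ⟨a, -⟩ <;> rw [a]
    · exact le_abs_self _
    · rw [mul_neg, Real.sin_neg]; exact neg_le_abs _
  have : 2 / Real.pi * (Real.pi * |t|) = 2 * |t| := by field_simp
  linarith

lemma sq_sum {ι : Type*} (s : Finset ι) (θ : ι → ℝ) :
    ((‖∑ i ∈ s, e (θ i)‖ ^ 2 : ℝ) : ℂ) = ∑ i ∈ s, ∑ j ∈ s, e (θ i - θ j) := by
  push_cast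
  rw [← mul_conj', map_sum, sum_mul_sum]
  simp only [e_conj, ← e_add, sub_eq_add_neg]

lemma fejer (M : ℕ) (hM : 2 ≤ M) (y : ℝ) (h : ∀ n : ℤ, 1 / (M : ℝ) ≤ |y - n|) :
    (∑ p ∈ (range (M ^ 2)).offDiag, e (((p.1 : ℝ) - p.2) * y)).re ≤ -1 := by
  have M2 : (2 : ℝ) ≤ M := by exact_mod_cast hM
  have h1 := e_low y _ h
  have h2 : ‖∑ m ∈ range (M ^ 2), e (m * y)‖ * ‖e y - 1‖ ≤ 2 := by
    rw [← norm_mul]
    simp only [← e_pow]
    rw [geom_sum_mul]
    refine (norm_sub_le _ _).trans ?_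
    rw [norm_pow, ne]; norm_num
  have h3 : ‖∑ m ∈ range (M ^ 2), e (m * y)‖ ≤ M / 2 := by
    have := (mul_le_mul_of_nonneg_left h1 (norm_nonneg _)).trans h2
    rw [mul_one_div, ← mul_div_assoc, div_le_iff₀ (by linarith)] at this
    linarith
  have h4 := sq_sum (range (M ^ 2)) fun m => (m : ℝ) * y
  rw [← sum_product', ← diag_union_offDiag, sum_union (disjoint_diag_offDiag _), sum_diag] at h4
  have h5 := congrArg re h4
  simp only [sub_self, ← sub_mul, ofReal_re, add_re] at h5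
  have : e 0 = 1 := by simp [e]
  simp only [zero_mul, this, sum_const, card_range, nsmul_eq_mul, mul_one, natCast_re] at h5
  push_cast at h5
  have h6 : ‖∑ m ∈ range (M ^ 2), e (m * y)‖ ^ 2 ≤ (M / 2) ^ 2 := by gcongr
  nlinarith

lemma int_e (μ : Measure ℝ) [IsFiniteMeasure μ] (c : ℝ) : Integrable (fun x => e (c * x)) μ :=
  Integrable.of_bound (e_cont.comp (by fun_prop)).aestronglyMeasurable 1
    (Eventually.of_forall fun x => (ne _).le)

lemma cesaro (μ : Measure ℝ) [IsFiniteMeasure μ] (hμ : Tendsto (FT μ) (cocompact ℝ) (𝓝 0))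
    (M : ℕ) (hM : 2 ≤ M) (r : ℝ) (hr : 1 ≤ |r|) (θ : ℝ) (hθ : 0 < θ) :
    ∀ᶠ J : ℕ in atTop, ∫ x, ‖∑ j ∈ range J, e (r * M ^ (J + j) * x)‖ ∂μ ≤ θ * J := by
  have M2 : (2 : ℝ) ≤ M := by exact_mod_cast hM
  set m := μ.real Set.univ
  have m0 : 0 ≤ m := measureReal_nonneg
  set η := θ / (m + 1) with hη
  have η0 : 0 < η := by positivity
  have hθ' : θ = η * (m + 1) := by rw [hη]; field_simp
  obtain ⟨R, hR⟩ : ∃ R : ℝ, ∀ ξ, R ≤ |ξ| → ‖FT μ ξ‖ ≤ η ^ 2 := by
    have := (tendsto_zero_iff_norm_tendsto_zero.1 hμ).eventually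
      (ge_mem_nhds (show 0 < η ^ 2 by positivity))
    obtain ⟨K, hK, h⟩ := mem_cocompact.1 this
    obtain ⟨R, hR⟩ := hK.isBounded.exists_norm_le
    exact ⟨R + 1, fun ξ hξ => h fun hc => by
      have := hR ξ hc; rw [Real.norm_eq_abs] at this; linarith⟩
  filter_upwards [eventually_ge_atTop ⌈R⌉₊, eventually_ge_atTop ⌈m / η ^ 2⌉₊,
    eventually_ge_atTop 1] with J J1 J2 J3
  have J1' : R ≤ J := (Nat.le_ceil _).trans (by exact_mod_cast J1)
  have J2' : m / η ^ 2 ≤ J := (Nat.le_ceil _).trans (by exact_mod_cast J2)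
  have J0 : (0 : ℝ) < J := by exact_mod_cast J3
  rw [div_le_iff₀ (by positivity)] at J2'
  have far : ∀ i j : ℕ, i < j → (J : ℝ) ≤ (M : ℝ) ^ (J + j) - M ^ (J + i) := by
    intro i j hij
    have a1 : (M : ℝ) ^ (J + i + 1) ≤ M ^ (J + j) := pow_le_pow_right₀ (by linarith) (by omega)
    have a2 : (2 : ℝ) ^ J ≤ M ^ (J + i) :=
      (pow_le_pow_left₀ (by norm_num) M2 J).trans (pow_le_pow_right₀ (by linarith) (by omega))
    have a3 : (J : ℝ) ≤ 2 ^ J := by exact_mod_cast (Nat.lt_two_pow_self).le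
    rw [pow_succ] at a1
    nlinarith
  have iS : Integrable (fun x => ‖∑ j ∈ range J, e (r * M ^ (J + j) * x)‖ ^ 2) μ := by
    refine Integrable.of_bound (Continuous.aestronglyMeasurable ?_) ((J : ℝ) ^ 2)
      (Eventually.of_forall fun x => ?_)
    · have := e_cont
      fun_prop
    · rw [norm_pow, norm_norm]
      gcongr
      exact (norm_sum_le _ _).trans (by simp [ne])
  have L2 : ∫ x, ‖∑ j ∈ range J, e (r * M ^ (J + j) * x)‖ ^ 2 ∂μ ≤ J * (m + J * η ^ 2) := by
    refine (le_abs_self _).trans ?_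
    rw [← Real.norm_eq_abs, ← norm_real, ← integral_complex_ofReal]
    simp only [sq_sum, ← sub_mul]
    rw [integral_finset_sum _ fun i _ => integrable_finset_sum _ fun j _ => int_e μ _]
    refine (norm_sum_le _ _).trans ((sum_le_card_nsmul _ _ (m + J * η ^ 2) fun i hi => ?_).trans
      (by rw [card_range, nsmul_eq_mul]))
    rw [integral_finset_sum _ fun j _ => int_e μ _]
    refine (norm_sum_le _ _).trans ((sum_le_sum (g := fun j => (if j = i then m else 0) + η ^ 2)
      fun j _ => ?_).trans (by simp [sum_add_distrib, mem_range.1 hi]))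
    split_ifs with h
    · have := norm_integral_le_of_norm_le_const (μ := μ) (C := 1)
        (f := fun x => e ((r * M ^ (J + i) - r * M ^ (J + j)) * x))
        (Eventually.of_forall fun x => (ne _).le)
      have : 0 ≤ η ^ 2 := by positivity
      linarith
    · have : ∫ x, e ((r * M ^ (J + i) - r * M ^ (J + j)) * x) ∂μ =
          FT μ (r * (M ^ (J + j) - M ^ (J + i))) := by
        unfold FT e; congr 1; ext x; congr 1; push_cast; ring
      rw [this, zero_add]
      apply hR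
      rw [abs_mul]
      have : (J : ℝ) ≤ |(M : ℝ) ^ (J + j) - M ^ (J + i)| := by
        rcases lt_or_gt_of_ne h with c | c
        · rw [abs_sub_comm]; exact (far j i c).trans (le_abs_self _)
        · exact (far i j c).trans (le_abs_self _)
      nlinarith
  calc _ ≤ ∫ x, (η * J / 2 + (2 * η * J)⁻¹ * ‖∑ j ∈ range J, e (r * M ^ (J + j) * x)‖ ^ 2) ∂μ := by
        refine integral_mono_of_nonneg (Eventually.of_forall fun x => norm_nonneg _)
          ((integrable_const _).add (iS.const_mul _)) (Eventually.of_forall fun x => ?_)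
        simp only
        generalize ‖∑ j ∈ range J, e (r * M ^ (J + j) * x)‖ = s
        rw [← sub_nonneg]
        have : η * J / 2 + (2 * η * J)⁻¹ * s ^ 2 - s = (2 * η * J)⁻¹ * (s - η * J) ^ 2 := by
          field_simp; ring
        rw [this]; positivity
    _ = m * (η * J / 2) +
          (2 * η * J)⁻¹ * ∫ x, ‖∑ j ∈ range J, e (r * M ^ (J + j) * x)‖ ^ 2 ∂μ := by
        rw [integral_add (integrable_const _) (iS.const_mul _), integral_const, integral_const_mul,
          smul_eq_mul]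
    _ ≤ m * (η * J / 2) + (2 * η * J)⁻¹ * (J * (J * η ^ 2 + J * η ^ 2)) := by
        gcongr
        exact L2.trans (by gcongr)
    _ = m * (η * J / 2) + η * J := by field_simp; ring
    _ ≤ θ * J := by
        rw [hθ']
        have : 0 ≤ m * (η * J) := by positivity
        nlinarith

lemma H_closed (M : ℕ) : IsClosed (H M) := by
  simp only [H, Set.setOf_forall]
  exact isClosed_iInter fun j => isClosed_iInter fun n => isClosed_le continuous_const (by fun_prop)

lemma H_null (μ : Measure ℝ) [IsFiniteMeasure μ] (hμ : Tendsto (FT μ) (cocompact ℝ) (𝓝 0))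
    (M : ℕ) (hM : 2 ≤ M) : μ (H M) = 0 := by
  rw [← measureReal_eq_zero_iff]
  by_contra hn
  have a0 : 0 < μ.real (H M) := lt_of_le_of_ne measureReal_nonneg (Ne.symm hn)
  set D := (range (M ^ 2)).offDiag
  set θ := μ.real (H M) / (D.card + 1) with hθ
  have := (eventually_all_finset D).2 fun p hp => cesaro μ hμ M hM ((p.1 : ℝ) - p.2) (by
    have : (1 : ℤ) ≤ |(p.1 : ℤ) - p.2| := Int.one_le_abs (by have := (mem_offDiag.1 hp).2.2; omega)
    exact_mod_cast this) θ (by positivity)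
  obtain ⟨J, hJ, J1⟩ := (this.and (eventually_ge_atTop 1)).exists
  have J0 : (0 : ℝ) < J := by exact_mod_cast J1
  have iS : ∀ p : ℕ × ℕ, Integrable
      (fun x => ‖∑ j ∈ range J, e (((p.1 : ℝ) - p.2) * M ^ (J + j) * x)‖) μ := fun p =>
    (integrable_finset_sum _ fun j _ => int_e μ _).norm
  have key : μ.real (H M) * J ≤ D.card * (θ * J) :=
    calc μ.real (H M) * J = ∫ x, (H M).indicator (fun _ => (J : ℝ)) x ∂μ := by
          rw [integral_indicator_const _ (H_closed M).measurableSet, smul_eq_mul]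
      _ ≤ ∫ x, ∑ p ∈ D, ‖∑ j ∈ range J, e (((p.1 : ℝ) - p.2) * M ^ (J + j) * x)‖ ∂μ := by
          refine integral_mono ((integrable_const _).indicator (H_closed M).measurableSet)
            (integrable_finset_sum _ fun p _ => iS p) fun x => ?_
          by_cases hx : x ∈ H M
          · rw [Set.indicator_of_mem hx]
            refine le_trans ?_ (norm_sum_le _ _)
            rw [sum_comm]
            refine le_trans ?_ ((neg_le_abs _).trans (abs_re_le_norm _))
            rw [re_sum, ← sum_neg_distrib]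
            refine le_trans (by simp) (card_nsmul_le_sum _ _ (1 : ℝ) fun j _ => ?_)
            have := fejer M hM (M ^ (J + j) * x) (hx _)
            simp only [mul_assoc]
            linarith
          · rw [Set.indicator_of_notMem hx]; positivity
      _ = ∑ p ∈ D, ∫ x, ‖∑ j ∈ range J, e (((p.1 : ℝ) - p.2) * M ^ (J + j) * x)‖ ∂μ :=
          integral_finset_sum _ fun p _ => iS p
      _ ≤ _ := (sum_le_card_nsmul _ _ _ hJ).trans (by rw [nsmul_eq_mul])
  have : μ.real (H M) = θ * (D.card + 1) := (div_mul_cancel₀ _ (by positivity)).symm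
  have θ0 : 0 < θ := div_pos a0 (Nat.cast_add_one_pos _)
  rw [this] at key
  nlinarith [mul_pos θ0 J0]

lemma digit (M : ℕ) (T : Finset ℝ) (h : 4 * T.card < M) :
    ∃ d : Fin M, ∀ θ ∈ T, ∀ n : ℤ, 2 ≤ |M * θ + (d : ℕ) - M * n| := by
  have M0 : (0 : ℤ) < M := by exact_mod_cast (by omega : 0 < M)
  obtain ⟨d, hd, hn⟩ := exists_mem_notMem_of_card_lt_card (s := (T ×ˢ Icc (-2 : ℤ) 1).image
    fun p : ℝ × ℤ => ((p.2 - ⌊(M : ℝ) * p.1⌋) % (M : ℤ)).toNat) (t := range M)
    (card_image_le.trans_lt (by simp; omega))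
  refine ⟨⟨d, mem_range.1 hd⟩, fun θ hθ n => ?_⟩
  by_contra hc
  apply hn
  rw [not_le, abs_lt] at hc
  have f1 := Int.floor_le (M * θ)
  have f2 := Int.lt_floor_add_one (M * θ)
  refine mem_image.2 ⟨(θ, d - M * n + ⌊M * θ⌋), mem_product.2 ⟨hθ, mem_Icc.2 ⟨?_, ?_⟩⟩, ?_⟩
  · have : ((-3 : ℤ) : ℝ) < ((d - M * n + ⌊M * θ⌋ : ℤ) : ℝ) := by push_cast; linarith [hc.1]
    have := Int.cast_lt.1 this
    simp only; omega
  · have : ((d - M * n + ⌊M * θ⌋ : ℤ) : ℝ) < ((2 : ℤ) : ℝ) := by push_cast; linarith [hc.2]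
    have := Int.cast_lt.1 this
    simp only; omega
  · simp only [add_sub_cancel_right]
    rw [Int.sub_mul_emod_self_left, Int.emod_eq_of_lt (by omega) (by exact_mod_cast mem_range.1 hd)]
    simp

lemma point (M : ℕ) (hM : 0 < M) (S : ℕ → Finset ℝ) (h : ∀ j, 4 * (S j).card < M) :
    ∃ a : ℝ, 0 ≤ a ∧ a ≤ 1 ∧ ∀ j, ∀ s ∈ S j, ∀ n : ℤ, 1 / (M : ℝ) ≤ |(M : ℝ) ^ j * (a + s) - n| := by
  classical
  have M0 : (0 : ℝ) < M := by exact_mod_cast hM
  choose d hd using fun j => digit M ((S j).image fun s => (M : ℝ) ^ j * s)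
    (lt_of_le_of_lt (Nat.mul_le_mul_left 4 card_image_le) (h j))
  set a : ℕ → ℝ := fun j => Real.ofDigits fun i => d (i + j)
  have step : ∀ j, M * a j = (d j : ℕ) + a (j + 1) := by
    intro j
    have := Real.ofDigits_eq_sum_add_ofDigits (fun i => d (i + j)) 1
    simp only [a]
    rw [this]
    simp only [range_one, sum_singleton, Real.ofDigitsTerm, zero_add, pow_one, add_assoc,
      add_comm 1 j]
    field_simp
  have ind : ∀ j, ∃ N : ℤ, (M : ℝ) ^ j * a 0 = N + a j := by
    intro j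
    induction j with
    | zero => exact ⟨0, by simp⟩
    | succ j ih =>
      obtain ⟨N, hN⟩ := ih
      exact ⟨M * N + (d j : ℕ), by
        rw [pow_succ', mul_assoc, hN, mul_add, step]; push_cast; ring⟩
  refine ⟨a 0, Real.ofDigits_nonneg _, Real.ofDigits_le_one _, fun j s hs n => ?_⟩
  obtain ⟨N, hN⟩ := ind j
  have h1 := hd j _ (mem_image_of_mem _ hs) (n - N)
  have h2 : 0 ≤ a (j + 1) := Real.ofDigits_nonneg _
  have h3 : a (j + 1) ≤ 1 := Real.ofDigits_le_one _
  rw [div_le_iff₀ M0, ← abs_of_pos M0, ← abs_mul, abs_of_pos M0]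
  have : ((M : ℝ) ^ j * (a 0 + s) - n) * M =
      (M * (M ^ j * s) + (d j : ℕ) - M * ((n - N : ℤ) : ℝ)) + a (j + 1) := by
    rw [mul_add, hN]; push_cast; linear_combination step j
  rw [this]
  generalize (M * (M ^ j * s) + (d j : ℕ) - M * ((n - N : ℤ) : ℝ)) = z at *
  rcases abs_cases z with ⟨c, -⟩ | ⟨c, -⟩
  · exact le_trans (by linarith) (le_abs_self _)
  · exact le_trans (by linarith) (neg_le_abs _)

def E0 : Set ℝ := {x | 0 ≤ x ∧ ∀ k : ℕ, 3 * (k : ℝ) - 1 < x → x < 3 * k + 3 → x ∈ H (4 * k + 5)}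

lemma E0_closed : IsClosed E0 := by
  have : E0 = Set.Ici 0 ∩ ⋂ k : ℕ, ((Set.Ioo (3 * (k : ℝ) - 1) (3 * k + 3))ᶜ ∪ H (4 * k + 5)) := by
    ext x; simp only [E0, Set.mem_setOf_eq, Set.mem_inter_iff, Set.mem_Ici, Set.mem_iInter,
      Set.mem_union, Set.mem_compl_iff, Set.mem_Ioo]
    exact and_congr_right fun _ => forall_congr' fun k => by tauto
  rw [this]
  exact isClosed_Ici.inter (isClosed_iInter fun k => isOpen_Ioo.isClosed_compl.union (H_closed _))

theorem result : ∃ E : Set ℝ, Perfect E ∧ AllPatterns E ∧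
    ∀ (μ : Measure ℝ) [IsFiniteMeasure μ], μ ≠ 0 → μ.support ⊆ E →
      ¬ Tendsto (FT μ) (cocompact ℝ) (𝓝 0) := by
  classical
  obtain ⟨V, D, hV, hD, hE⟩ := exists_countable_union_perfect_of_isClosed E0_closed
  refine ⟨D, hD, fun F => ?_, fun μ _ h0 hs hμ => h0 ?_⟩
  · set k := F.card
    set b : ℝ := 1 / (2 * (1 + ∑ x ∈ F, |x|)) with hb
    have S0 : 0 ≤ ∑ x ∈ F, |x| := sum_nonneg fun _ _ => abs_nonneg _
    have b0 : 0 < b := by positivity
    have bx : ∀ x ∈ F, |b * x| ≤ 1 / 2 := fun x hx => by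
      have := single_le_sum (f := fun x : ℝ => |x|) (fun _ _ => abs_nonneg _) hx
      rw [abs_mul, abs_of_pos b0, hb, one_div_mul_eq_div, div_le_div_iff₀ (by positivity) two_pos]
      linarith
    set s : ℝ → ℝ := fun x => 3 * k + 1 / 2 + b * x
    obtain ⟨w, hw⟩ := ((F.countable_toSet.image2 hV fun x v => s x - v).insert 0).exists_eq_range
      (Set.insert_nonempty _ _)
    obtain ⟨a, a0, a1, ha⟩ := point (4 * k + 5) (by omega) (fun j => insert (w j) (F.image s))
      fun j => by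
        have := card_insert_le (w j) (F.image s)
        have : (F.image s).card ≤ k := card_image_le
        omega
    refine ⟨a + 3 * k + 1 / 2, b, b0.ne', fun x hx => ?_⟩
    have e1 : a + 3 * k + 1 / 2 + b * x = a + s x := by simp only [s]; ring
    have l := abs_le.1 (bx x hx)
    have mem : a + 3 * k + 1 / 2 + b * x ∈ E0 := by
      refine ⟨by have : (0 : ℝ) ≤ k := by positivity
                 linarith, fun k' h1 h2 => ?_⟩
      have c1 : (k' : ℝ) < k + 1 := by linarith
      have c2 : (k : ℝ) < k' + 1 := by linarith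
      have : k' = k := by
        have c1' : k' < k + 1 := by exact_mod_cast c1
        have c2' : k < k' + 1 := by exact_mod_cast c2
        omega
      rw [this, e1]
      exact fun j n => ha j _ (mem_insert_of_mem (mem_image_of_mem _ hx)) n
    rw [hE] at mem
    refine mem.resolve_left fun hv => ?_
    have : s x - (a + 3 * k + 1 / 2 + b * x) ∈ Set.range w := by
      rw [← hw]; exact Or.inr (Set.mem_image2_of_mem hx hv)
    obtain ⟨j, hj⟩ := this
    have := ha j (w j) (mem_insert_self _ _) 0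
    rw [hj, e1] at this
    simp at this
    have : (0 : ℝ) < (4 * k + 5 : ℝ)⁻¹ := by positivity
    linarith
  · rw [← Measure.measure_univ_eq_zero, ← Set.union_compl_self μ.support]
    refine measure_union_null (measure_mono_null (t := ⋃ k : ℕ, H (4 * k + 5)) ?_
      (measure_iUnion_null fun k => H_null μ hμ _ (by omega))) Measure.measure_compl_support
    intro x hx
    have : x ∈ E0 := hE ▸ Or.inr (hs hx)
    have f1 := Nat.floor_le (show 0 ≤ x / 3 by linarith [this.1])
    have f2 := Nat.lt_floor_add_one (x / 3)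
    exact Set.mem_iUnion.2 ⟨⌊x / 3⌋₊, this.2 _ (by linarith) (by linarith)⟩

end Pool.Agent.Results.MP_701998_an.Patterns
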